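import Pool.Agent.KK.StmtsW

set_option autoImplicit false

namespace Pool.Agent.KK.H2

theorem near_mono {V : Type} [Fintype V] [DecidableEq V] {H : Finset (Finset V)} {X : Finset V}
    {k p : ℕ} {γ γ' : ℝ} (hγ : γ ≤ γ') (h : Near H X k p γ) : Near H X k p γ' := by
  intro v u₁ u₂ hl
  obtain ⟨h1, h2⟩ := h v u₁ u₂ hl
  have hc : (0 : ℝ) ≤ (Fintype.card V : ℝ) ^ (k - 1) := by positivity
  exact ⟨fun hp => (h1 hp).trans (mul_le_mul_of_nonneg_right hγ hc),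
    fun hp => (h2 hp).trans (mul_le_mul_of_nonneg_right hγ hc)⟩

theorem loops_mono {V : Type} [Fintype V] [DecidableEq V] {H : Finset (Finset V)} {X : Finset V}
    {k p : ℕ} {ε : ℝ} {K j t K₀ K₁ : ℕ} (hK : K₀ ≤ K₁) (h : Loops V H X k p ε K j t K₀) :
    Loops V H X k p ε K j t K₁ := by
  intro N a h1 h2
  obtain ⟨q, hq, hP⟩ := h N a (by omega) (by omega)
  exact ⟨q, by omega, hP⟩

theorem bet (hgad : GadgetStmt) (hsiz : SizStmt) (hlor : LorStmt) (hlop : LopStmt)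
    (hlol : LolStmt) (htou : TurStmt) (hasm : AssStmt) : BetaStmt := by
  intro k hk
  obtain ⟨ε, hε0, hε1, hA⟩ := hasm k (by omega)
  obtain ⟨K1, hK1⟩ := hlor k hk
  obtain ⟨K2, hK2⟩ := hlop k hk
  obtain ⟨K3, hK3⟩ := hlol k hk
  obtain ⟨n1, hn1⟩ := hA (4 * k * (K1 + K2 + K3))
  have hk0 : (0 : ℝ) < (k : ℝ) := by exact_mod_cast (by omega : 0 < k)
  have hk3 : (3 : ℝ) ≤ (k : ℝ) := by exact_mod_cast hk
  obtain ⟨γ1, hγ1, n2, hn2⟩ := hsiz k hk (1 / (8 * (k : ℝ))) (by positivity)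
  obtain ⟨γ2, hγ2, n3, hn3⟩ := hgad k hk ε (4 * k * (K1 + K2 + K3)) hε0
  obtain ⟨n4, hn4⟩ := htou k (K1 + K2 + K3) hk
  refine ⟨min ε (min γ1 γ2), lt_min hε0 (lt_min hγ1 hγ2), n1 + n2 + n3 + n4, ?_⟩
  intro V _ _ H X p hn hu hd hp hX hX' hN
  have hNe : Near H X k p ε := near_mono (min_le_left _ _) hN
  have hN1 : Near H X k p γ1 := near_mono ((min_le_right _ _).trans (min_le_left _ _)) hN
  have hN2 : Near H X k p γ2 := near_mono ((min_le_right _ _).trans (min_le_right _ _)) hN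
  obtain ⟨hlo, hhi⟩ := hn2 V H X p (by omega) hd hp hN1 hX hX'
  have hL : ∀ j : ℕ, 1 ≤ j → j + 1 ≤ k → j % 2 ≠ p →
      Loops V H X k p ε (4 * k * (K1 + K2 + K3)) j (j - 1) (K1 + K2 + K3) ∧
        Loops V H X k p ε (4 * k * (K1 + K2 + K3)) j (j + 1) (K1 + K2 + K3) := by
    intro j hj1 hj2 hjp
    have hjp' : (j + 1) % 2 = p := by omega
    rcases hn3 V H X p (by omega) hu hd hp hN2 j hj1 hj2 hjp with hP | hR | hL
    · obtain ⟨h1, h2⟩ := hK2 V H X p ε _ j hj1 hj2 hjp' hP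
      exact ⟨loops_mono (by omega) h1, loops_mono (by omega) h2⟩
    · obtain ⟨h1, h2⟩ := hK1 V H X p ε _ j hj1 hj2 hjp' hR
      exact ⟨loops_mono (by omega) h1, loops_mono (by omega) h2⟩
    · obtain ⟨h1, h2⟩ := hK3 V H X p ε _ j hj1 hj2 hp hjp' hL
      exact ⟨loops_mono (by omega) h1, loops_mono (by omega) h2⟩
  obtain ⟨u, q, hq, hPl⟩ := hn4 V H X p ε _ (by omega) hp hlo hhi hL
  have hη : 1 / (8 * (k : ℝ)) ≤ 1 / 24 :=
    one_div_le_one_div_of_le (by norm_num) (by linarith)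
  have hc0 : (0 : ℝ) ≤ (Fintype.card V : ℝ) := Nat.cast_nonneg _
  have hc1 : Fintype.card V ≤ 4 * X.card := by
    have h : (Fintype.card V : ℝ) ≤ 4 * (X.card : ℝ) := by nlinarith
    exact_mod_cast h
  have hc2 : 4 * X.card ≤ 3 * Fintype.card V := by
    have h : 4 * (X.card : ℝ) ≤ 3 * (Fintype.card V : ℝ) := by nlinarith
    exact_mod_cast h
  refine hn1 V H X p ε (by omega) hε0.le le_rfl hNe hc1 hc2 u q hPl ?_
  calc 2 * k * q ≤ 2 * k * (2 * (K1 + K2 + K3)) := Nat.mul_le_mul_left _ hq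
    _ = 4 * k * (K1 + K2 + K3) := by ring

end Pool.Agent.KK.H2
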