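import Pool.Agent.KK.StmtsE

set_option autoImplicit false

namespace Pool.Agent.KK.E.H2

open Finset

theorem e_gen (h1 : StmtE01) (h2 : StmtE02) (h4 : StmtE04) (h11 : StmtE11) : StmtE12 := by
  classical
  intro V _ _ ι _ H X A W p q B δ ρ η l hamb hη hρ hstep hcard hW hA
  set k : ℕ := p + q + 2 with hk
  have hk2 : 2 ≤ k := by omega
  have hkR : (2 : ℝ) ≤ (k : ℝ) := by exact_mod_cast hk2
  have hδ0 := hamb.pos
  have hδ1 := hamb.small
  have hbig := hamb.big
  have hn0 : 0 < (Fintype.card V : ℝ) := by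
    by_contra hcon
    have h0 : (Fintype.card V : ℝ) = 0 := le_antisymm (not_lt.1 hcon) (Nat.cast_nonneg _)
    rw [h0, mul_zero] at hbig
    have h3 : (0 : ℝ) < 100 * ((p + q + 2 : ℕ) : ℝ) ^ 2 * ((B + p + q + 2 : ℕ) : ℝ) := by
      have : (0 : ℝ) < ((p + q + 2 : ℕ) : ℝ) := by positivity
      have h5 : (0 : ℝ) < ((B + p + q + 2 : ℕ) : ℝ) := by positivity
      positivity
    linarith
  have hn : 0 < Fintype.card V := by exact_mod_cast hn0
  have hlo := hamb.lo
  have hlo' := hamb.lo'
  have hX0 : (0 : ℝ) < (X.card : ℝ) := by nlinarith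
  have hX0' : (0 : ℝ) < ((Xᶜ).card : ℝ) := by nlinarith
  have hXn : X.Nonempty := Finset.card_pos.1 (by exact_mod_cast hX0)
  have hXn' : (Xᶜ).Nonempty := Finset.card_pos.1 (by exact_mod_cast hX0')
  have hsdn : ∀ b, (sd X b).Nonempty := by
    intro b
    cases b
    · simpa [sd] using hXn'
    · simpa [sd] using hXn
  have hsd3 : ∀ b, (Fintype.card V : ℝ) ≤ 3 * ((sd X b).card : ℝ) := by
    intro b
    cases b
    · have : (sd X false) = Xᶜ := by simp [sd]
      rw [this]; nlinarith
    · have : (sd X true) = X := by simp [sd]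
      rw [this]; nlinarith
  have hcne : ∀ i, ((fun i => sd X (l i)) i : Finset V).Nonempty := fun i => hsdn (l i)
  obtain ⟨e1, e2, e3, -, -, e6⟩ := h1 V ι (fun i => sd X (l i)) hcne
  -- the two parts
  have hpart1 : dens (fun i => sd X (l i))
      (fun f => ¬ (Function.Injective f ∧ ∀ i, (fun _ : ι => (none : Option V)) i = none →
        f i ∉ A ∪ W)) ≤ δ := by
    have h := h4 V ι X (A ∪ W) l (fun _ => none) hn hsd3 (by intro i i' v hv; simp at hv)
    have hbx : bx X l (fun _ : ι => (none : Option V)) = fun i => sd X (l i) := by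
      funext i; simp [bx]
    rw [hbx] at h
    refine h.trans ?_
    rw [div_le_iff₀ hn0]
    have hcu : ((A ∪ W).card : ℝ) ≤ (A.card : ℝ) + (W.card : ℝ) := by
      exact_mod_cast Finset.card_union_le A W
    have hm : (A.card : ℝ) + (Fintype.card ι : ℝ) ≤ (k : ℝ) := by exact_mod_cast hcard
    have hWR : (W.card : ℝ) ≤ (B : ℝ) + (k : ℝ) + 1 := by exact_mod_cast hW
    have hm0 : (0 : ℝ) ≤ (Fintype.card ι : ℝ) := Nat.cast_nonneg _
    have hA0 : (0 : ℝ) ≤ (A.card : ℝ) := Nat.cast_nonneg _
    have hB0 : (0 : ℝ) ≤ (B : ℝ) := Nat.cast_nonneg _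
    have hb2 : 100 * (k : ℝ) ^ 2 * ((B : ℝ) + (k : ℝ)) ≤ δ * (Fintype.card V : ℝ) := by
      have : ((B + p + q + 2 : ℕ) : ℝ) = (B : ℝ) + (k : ℝ) := by
        rw [hk]; push_cast; ring
      rw [← this]; exact hbig
    have hmk : (Fintype.card ι : ℝ) ≤ (k : ℝ) := by linarith
    have hs1 : (Fintype.card ι : ℝ) ^ 2 + (Fintype.card ι : ℝ) * ((A ∪ W).card : ℝ) ≤
        (k : ℝ) * ((B : ℝ) + 2 * (k : ℝ) + 1) := by
      have : (Fintype.card ι : ℝ) + ((A ∪ W).card : ℝ) ≤ (B : ℝ) + 2 * (k : ℝ) + 1 := by linarith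
      calc (Fintype.card ι : ℝ) ^ 2 + (Fintype.card ι : ℝ) * ((A ∪ W).card : ℝ)
          = (Fintype.card ι : ℝ) * ((Fintype.card ι : ℝ) + ((A ∪ W).card : ℝ)) := by ring
        _ ≤ (k : ℝ) * ((B : ℝ) + 2 * (k : ℝ) + 1) := by
            apply mul_le_mul hmk this (by positivity) (by positivity)
    have hs2 : 3 * ((k : ℝ) * ((B : ℝ) + 2 * (k : ℝ) + 1)) ≤
        100 * (k : ℝ) ^ 2 * ((B : ℝ) + (k : ℝ)) := by
      nlinarith [mul_nonneg hB0 (by linarith : (0 : ℝ) ≤ (k : ℝ)), mul_nonneg hB0 (by
        positivity : (0 : ℝ) ≤ (k : ℝ) ^ 2), mul_pos (by linarith : (0 : ℝ) < (k : ℝ))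
        (by linarith : (0 : ℝ) < (k : ℝ)), pow_pos (by linarith : (0 : ℝ) < (k : ℝ)) 3,
        mul_nonneg (by linarith : (0 : ℝ) ≤ (k : ℝ) - 2) (mul_nonneg hB0
          (by linarith : (0 : ℝ) ≤ (k : ℝ))), mul_nonneg (by linarith : (0 : ℝ) ≤ (k : ℝ) - 2)
          (by positivity : (0 : ℝ) ≤ (k : ℝ) ^ 2)]
    nlinarith
  -- second part
  let P : ({A' // A' ∈ A.powerset} × Finset ι) → (ι → V) → Prop := fun t z =>
    t.2.Nonempty ∧ (t.1.1 ∪ t.2.image z).card = t.1.1.card + t.2.card ∧
      Non H X p q η (t.1.1 ∪ t.2.image z)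
  have hP : ∀ t, dens (fun i => sd X (l i)) (P t) ≤ ρ := by
    rintro ⟨⟨A', hA'⟩, J⟩
    rw [Finset.mem_powerset] at hA'
    by_cases hJ : J.Nonempty
    · have hφ : Function.Injective (Subtype.val : {x // x ∈ J} → ι) := Subtype.val_injective
      have himg : ∀ z : ι → V, (Finset.univ : Finset {x // x ∈ J}).image
          (z ∘ (Subtype.val : {x // x ∈ J} → ι)) = J.image z := by
        intro z
        ext v
        simp
      have hE := h2 V ι {x // x ∈ J} (fun i => sd X (l i)) Subtype.val hcne hφ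
        (fun z => (A' ∪ Finset.univ.image z).card = A'.card + Fintype.card {x // x ∈ J} ∧
          Non H X p q η (A' ∪ Finset.univ.image z))
      have hcJ : Fintype.card {x // x ∈ J} = J.card := Fintype.card_coe J
      have hle1 : A'.card ≤ A.card := Finset.card_le_card hA'
      have hle2 : J.card ≤ Fintype.card ι := Finset.card_le_univ J
      have hJ1 : 0 < J.card := Finset.card_pos.2 hJ
      have h11' := h11 V {x // x ∈ J} H X A' p q η (l ∘ Subtype.val) hXn hXn'
        (hη _ (by omega)).le (by rw [hcJ]; exact hη _ (by omega)) (hA A' hA')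
      have hpos : 0 < η (A'.card + J.card) := hη _ (by omega)
      have hst := hstep A'.card (A'.card + J.card) (by omega) (by omega)
      refine (e2 (P ⟨⟨A', _⟩, J⟩) (fun f => (A' ∪ Finset.univ.image
        (f ∘ (Subtype.val : {x // x ∈ J} → ι))).card = A'.card + Fintype.card {x // x ∈ J} ∧
          Non H X p q η (A' ∪ Finset.univ.image (f ∘ (Subtype.val : {x // x ∈ J} → ι)))) ?_).trans ?_
      · intro f _ hf
        rw [himg, hcJ]
        exact ⟨hf.2.1, hf.2.2⟩
      · rw [hE]
        refine (le_trans (le_of_eq ?_) h11').trans ?_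
        · rfl
        · rw [hcJ, div_le_iff₀ hpos]
          exact hst
    · refine le_trans (le_of_eq ?_) hρ
      have h0 : dens (fun i => sd X (l i)) (P ⟨⟨A', by rw [Finset.mem_powerset]; exact hA'⟩, J⟩) =
          0 := by
        have : {f : ι → V | (∀ i, f i ∈ sd X (l i)) ∧
            P ⟨⟨A', by rw [Finset.mem_powerset]; exact hA'⟩, J⟩ f} = ∅ := by
          ext f
          simp only [Set.mem_setOf_eq, Set.mem_empty_iff_false, iff_false, not_and]
          intro _ hf
          exact hJ hf.1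
        unfold dens
        rw [this]
        simp
      exact h0
  have hsum : dens (fun i => sd X (l i)) (fun f => ∃ t, P t f) ≤ 2 ^ k * ρ := by
    refine (e6 _ P).trans ?_
    refine (Finset.sum_le_sum fun t _ => hP t).trans ?_
    rw [Finset.sum_const, nsmul_eq_mul, Finset.card_univ, Fintype.card_prod, Fintype.card_finset,
      Fintype.card_coe, Finset.card_powerset]
    apply mul_le_mul_of_nonneg_right _ hρ
    push_cast
    rw [← pow_add]
    apply pow_le_pow_right₀ (by norm_num) hcard
  refine (e2 _ (fun f => (∃ t, P t f) ∨ ¬ (Function.Injective f ∧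
    ∀ i, (fun _ : ι => (none : Option V)) i = none → f i ∉ A ∪ W)) ?_).trans ?_
  · intro f _ hG
    by_cases hinj : Function.Injective f ∧
      ∀ i, (fun _ : ι => (none : Option V)) i = none → f i ∉ A ∪ W
    · left
      obtain ⟨hi, ho⟩ := hinj
      have ho' : ∀ i, f i ∉ A ∪ W := fun i => ho i rfl
      have hex : ∃ N : Finset V, N ⊆ A ∪ Finset.univ.image f ∧ Non H X p q η N := by
        by_contra hcon
        apply hG
        refine ⟨hi, ho', ?_⟩
        intro N hN hnon
        exact hcon ⟨N, hN, hnon⟩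
      obtain ⟨N, hN, hnon⟩ := hex
      have hdec : (N ∩ A) ∪ (Finset.univ.filter fun i => f i ∈ N).image f = N := by
        ext v
        simp only [Finset.mem_union, Finset.mem_inter, Finset.mem_image, Finset.mem_filter,
          Finset.mem_univ, true_and]
        constructor
        · rintro (⟨hv, -⟩ | ⟨i, hi1, rfl⟩)
          · exact hv
          · exact hi1
        · intro hv
          rcases Finset.mem_union.1 (hN hv) with hvA | hvf
          · exact Or.inl ⟨hv, hvA⟩
          · obtain ⟨i, -, rfl⟩ := Finset.mem_image.1 hvf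
            exact Or.inr ⟨i, hv, rfl⟩
      refine ⟨⟨⟨N ∩ A, Finset.mem_powerset.2 Finset.inter_subset_right⟩,
        Finset.univ.filter fun i => f i ∈ N⟩, ?_, ?_, ?_⟩
      · rw [Finset.nonempty_iff_ne_empty]
        intro he
        have he' : (Finset.univ.filter fun i => f i ∈ N) = ∅ := he
        rw [he', Finset.image_empty, Finset.union_empty] at hdec
        exact hA N (by rw [← hdec]; exact Finset.inter_subset_right) hnon
      · rw [Finset.card_union_of_disjoint, Finset.card_image_of_injective _ hi]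
        rw [Finset.disjoint_left]
        intro v hv hv'
        obtain ⟨i, -, rfl⟩ := Finset.mem_image.1 hv'
        exact ho' i (Finset.mem_union_left _ (Finset.mem_inter.1 hv).2)
      · show Non H X p q η ((N ∩ A) ∪ (Finset.univ.filter fun i => f i ∈ N).image f)
        rw [hdec]
        exact hnon
    · exact Or.inr hinj
  · refine (e3 _ _).trans ?_
    exact add_le_add hsum hpart1

end Pool.Agent.KK.E.H2
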