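import Pool.Agent.KK.StmtsW

set_option autoImplicit false

namespace Pool.Agent.KK.H2

theorem tou (htra : TraStmt) : TurStmt := by
  intro k K₀ hk
  refine ⟨100 * (k + K₀ + 1), ?_⟩
  intro V _ _ H X p ε K hn hp hlo hhi hL
  have hk0 : (0 : ℝ) < (k : ℝ) := by exact_mod_cast (by omega : 0 < k)
  set n : ℕ := Fintype.card V with hndef
  have hI1 : 4 * k * n ≤ 8 * k * X.card + n := by
    have h : (4 * (k : ℝ) - 1) * (n : ℝ) ≤ 8 * (k : ℝ) * (X.card : ℝ) := by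
      have h1 := mul_le_mul_of_nonneg_left hlo (by positivity : (0 : ℝ) ≤ 8 * (k : ℝ))
      have h2 : 8 * (k : ℝ) * ((1 / 2 - 1 / (8 * (k : ℝ))) * (n : ℝ)) =
          (4 * (k : ℝ) - 1) * (n : ℝ) := by
        field_simp
        ring
      rw [h2] at h1
      exact h1
    have h' : 4 * (k : ℝ) * (n : ℝ) ≤ 8 * (k : ℝ) * (X.card : ℝ) + (n : ℝ) := by linarith
    exact_mod_cast h'
  have hI2 : 8 * k * X.card ≤ 4 * k * n + n := by
    have h : 8 * (k : ℝ) * (X.card : ℝ) ≤ (4 * (k : ℝ) + 1) * (n : ℝ) := by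
      have h1 := mul_le_mul_of_nonneg_left hhi (by positivity : (0 : ℝ) ≤ 8 * (k : ℝ))
      have h2 : 8 * (k : ℝ) * ((1 / 2 + 1 / (8 * (k : ℝ))) * (n : ℝ)) =
          (4 * (k : ℝ) + 1) * (n : ℝ) := by
        field_simp
        ring
      rw [h2] at h1
      exact h1
    have h' : 8 * (k : ℝ) * (X.card : ℝ) ≤ 4 * (k : ℝ) * (n : ℝ) + (n : ℝ) := by linarith
    exact_mod_cast h'
  -- case A
  have caseA : ∀ j : ℕ, 1 ≤ j → j + 1 ≤ k → j % 2 ≠ p → 2 * j ≤ k + 1 → k ≤ 2 * j + 1 →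
      ∃ (u : List Bool) (q : ℕ), q ≤ 2 * K₀ ∧ Pl V H X k p ε K u u n X.card q := by
    intro j hj1 hj2 hjp hj3 hj4
    obtain ⟨hl, -⟩ := hL j hj1 hj2 hjp
    obtain ⟨i, rfl⟩ : ∃ i, j = i + 1 := ⟨j - 1, by omega⟩
    have e1 : (i + 1 - 1) * n + K₀ ≤ k * X.card := by
      rw [Nat.add_sub_cancel]
      have h8 : 8 * (i * n) + 3 * n ≤ 8 * (k * X.card) := by
        have : (2 * i + 1) * n ≤ k * n := Nat.mul_le_mul_right n (by omega)
        nlinarith
      omega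
    have e2 : k * X.card + K₀ ≤ (i + 1 + 1) * n := by
      have h8 : 8 * (k * X.card) + 3 * n ≤ 8 * ((i + 2) * n) := by
        have : k * n ≤ (2 * i + 3) * n := Nat.mul_le_mul_right n (by omega)
        nlinarith
      have : (i + 1 + 1) * n = (i + 2) * n := by ring
      omega
    obtain ⟨q, hq, hPl⟩ := hl n X.card e1 e2
    exact ⟨_, q, by omega, hPl⟩
  rcases Nat.even_or_odd k with ⟨T, hT⟩ | ⟨m, hm⟩
  · by_cases hTp : T % 2 = p
    · obtain ⟨S, rfl⟩ : ∃ S, T = S + 2 := ⟨T - 2, by omega⟩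
      have hk2 : k = 2 * (S + 2) := by omega
      have l1 := (hL (S + 3) (by omega) (by omega) (by omega)).1
      have l2 := (hL (S + 1) (by omega) (by omega) (by omega)).2
      have hs1 : S + 3 - 1 = S + 2 := by omega
      have hs2 : S + 1 + 1 = S + 2 := by omega
      rw [hs1] at l1
      rw [hs2] at l2
      obtain ⟨N₁, N₂, hN, hN1, hN2⟩ : ∃ N₁ N₂ : ℕ, n = N₁ + N₂ ∧ N₁ ≤ N₂ ∧ N₂ ≤ N₁ + 1 :=
        ⟨n / 2, n - n / 2, by omega, by omega, by omega⟩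
      obtain ⟨a₁, ha1, ha2⟩ : ∃ a₁ : ℕ, 4 * (S + 2) * a₁ ≤ (2 * (S + 2) + 1) * N₁ ∧
          (2 * (S + 2) + 1) * N₁ < 4 * (S + 2) * a₁ + 4 * (S + 2) := by
        refine ⟨(2 * (S + 2) + 1) * N₁ / (4 * (S + 2)), Nat.mul_div_le _ _, ?_⟩
        have := Nat.lt_mul_div_succ ((2 * (S + 2) + 1) * N₁) (by omega : 0 < 4 * (S + 2))
        calc (2 * (S + 2) + 1) * N₁ < _ := this
          _ = _ := by ring
      rw [hk2] at hI1 hI2
      rw [hN] at hI1 hI2
      have hbig : 50 * (2 * (S + 2) + K₀ + 1) ≤ N₁ + 1 := by omega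
      -- a₁ ≤ |X|
      have hax : a₁ ≤ X.card := by
        by_contra hcon
        have hcon' : X.card + 1 ≤ a₁ := by omega
        have h1 : 16 * (S + 2) * X.card + 16 * (S + 2) ≤ 16 * (S + 2) * a₁ := by nlinarith
        nlinarith
      obtain ⟨a₂, ha⟩ : ∃ a₂, X.card = a₁ + a₂ := ⟨X.card - a₁, by omega⟩
      rw [ha] at hI1 hI2
      have c1 : (S + 3 - 1) * N₁ + K₀ ≤ k * a₁ := by
        rw [hs1, hk2]
        nlinarith
      have c2 : k * a₁ + K₀ ≤ (S + 3 + 1) * N₁ := by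
        rw [hk2]
        nlinarith
      have c3 : (S + 1 - 1) * N₂ + K₀ ≤ k * a₂ := by
        rw [hk2, Nat.add_sub_cancel]
        nlinarith
      have c4 : k * a₂ + K₀ ≤ (S + 1 + 1) * N₂ := by
        rw [hk2]
        nlinarith
      obtain ⟨q1, hq1, hP1⟩ := l1 N₁ a₁ c1 c2
      obtain ⟨q2, hq2, hP2⟩ := l2 N₂ a₂ c3 c4
      refine ⟨per (blk k (S + 2)) 0 (k - 1), q1 + q2, by omega, ?_⟩
      rw [hN, ha]
      exact htra V H X k p ε K _ _ _ N₁ N₂ a₁ a₂ q1 q2 hP1 hP2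
    · exact caseA T (by omega) (by omega) hTp (by omega) (by omega)
  · by_cases hmp : m % 2 = p
    · exact caseA (m + 1) (by omega) (by omega) (by omega) (by omega) (by omega)
    · exact caseA m (by omega) (by omega) hmp (by omega) (by omega)

end Pool.Agent.KK.H2
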